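import Mathlib

/-!
# Definitions for problem MP_577a3c_an

The rough homogeneous singular integral `T_Ω`, the oscillation `O(f;B)`, the maximal mean
`M_r(f;B)` and the inequality `(∗)` of the problem.
-/

open MeasureTheory Metric Set Filter Topology
open scoped ENNReal NNReal

namespace Pool.Agent.Lib.MP_577a3c_an

/-- Euclidean space `ℝ^d`. -/
abbrev E (d : ℕ) := EuclideanSpace ℝ (Fin d)

/-- The unit sphere of `ℝ^d`. -/
abbrev S (d : ℕ) := sphere (0 : E d) 1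

/-- The rough kernel `K(z) = Ω(z/|z|) / |z|^d` for `z ≠ 0` (with the value `0` at `z = 0`). -/
noncomputable def kernel {d : ℕ} (Ω : S d → ℝ) (z : E d) : ℝ :=
  if hz : z = 0 then 0 else Ω ⟨‖z‖⁻¹ • z, by simp [norm_smul, hz]⟩ / ‖z‖ ^ d

/-- The rough homogeneous singular integral
`T_Ω f (x) = lim_{ε → 0+} ∫_{|y| > ε} Ω(y/|y|) |y|^{-d} f(x - y) dy`. -/
noncomputable def T {d : ℕ} (Ω : S d → ℝ) (f : E d → ℝ) (x : E d) : ℝ :=
  limUnder (𝓝[>] (0 : ℝ)) (fun ε : ℝ => ∫ y in {y : E d | ε < ‖y‖}, kernel Ω y * f (x - y))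

/-- `g_B = T_Ω (f 1_{ℝ^d \ 2B})` for the ball `B` with centre `c` and radius `ρ`. -/
noncomputable def g {d : ℕ} (Ω : S d → ℝ) (f : E d → ℝ) (c : E d) (ρ : ℝ) : E d → ℝ :=
  T Ω ((ball c (2 * ρ))ᶜ.indicator f)

/-- The `L²` oscillation
`O(f;B) = (|B|^{-2} ∬_{B×B} |g_B(x) - g_B(y)|² dx dy)^{1/2}`, where `B = ball c ρ`. -/
noncomputable def osc {d : ℕ} (Ω : S d → ℝ) (f : E d → ℝ) (c : E d) (ρ : ℝ) : ℝ≥0∞ :=
  ((volume (ball c ρ))⁻¹ ^ 2 *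
    ∫⁻ x in ball c ρ, ∫⁻ y in ball c ρ, ‖g Ω f c ρ x - g Ω f c ρ y‖ₑ ^ 2) ^ (1 / 2 : ℝ)

/-- The maximal mean
`M_r(f;B) = sup_{B' ⊇ B} (|B'|^{-1} ∫_{B'} |f|^r)^{1/r}`, where `B = ball c ρ` and the supremum
runs over all balls `B'` containing `B`. -/
noncomputable def maxMean {d : ℕ} (r : ℝ) (f : E d → ℝ) (c : E d) (ρ : ℝ) : ℝ≥0∞ :=
  ⨆ (c' : E d) (ρ' : ℝ) (_ : 0 < ρ') (_ : ball c ρ ⊆ ball c' ρ'),
    ((volume (ball c' ρ'))⁻¹ * ∫⁻ y in ball c' ρ', ‖f y‖ₑ ^ r) ^ (1 / r)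

/-- The inequality `(∗)` of the problem for the function `Ω` and the exponent `r`: for some
finite constant `C` one has `O(f;B) ≤ C M_r(f;B)` for every ball `B` and every bounded,
compactly supported measurable function `f`. -/
def OscillationInequality {d : ℕ} (Ω : S d → ℝ) (r : ℝ) : Prop :=
  ∃ C : ℝ≥0, ∀ (c : E d) (ρ : ℝ), 0 < ρ → ∀ f : E d → ℝ, Measurable f →
    (∃ M : ℝ, ∀ x, |f x| ≤ M) → HasCompactSupport f →
      osc Ω f c ρ ≤ C * maxMean r f c ρ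

end Pool.Agent.Lib.MP_577a3c_an
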