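import Mathlib
import Pool.Agent.Lib.MP_577a3c_an.Defs

/-!
# Proof of the failure of the oscillation inequality for rough singular integrals

Test functional: `J f Ω = ∫_B ψ(x) ∫ K_Ω(x - y) f(y) dy dx` with `B` the unit ball and
`ψ = 1_{x_0 ≥ 1/2} - 1_{x_0 ≤ -1/2}`.  At scale `R` one takes
`Ω(ω) = ω_1 τ(R ω_0/ω_1)` with `τ = sin` or `cos`, and `f(y) = ± τ'(R y_0/y_1)` on a ball of radius
`R/4` at distance `3R/2`; one of the two choices gives `J f Ω ≥ c` with `c` independent of `R`.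
`N = m²` separated scales are combined with random signs and
`Ω = sin (a ∑ ε_k Ω_k)`, `a ∼ 1/m`, which gives `J f Ω ≥ c' m` with `|f| ≤ 1`, `|Ω| ≤ 1`.
The Banach-Steinhaus theorem on `C(𝕊^{d-1})` then yields one `Ω`.
-/

open MeasureTheory Metric Set Filter Topology
open scoped ENNReal NNReal

namespace Pool.Agent.Lib.MP_577a3c_an

section signs

/-- sign of a boolean -/
noncomputable def sg (b : Bool) : ℝ := if b then 1 else -1

lemma sg_sq (b : Bool) : sg b * sg b = 1 := by cases b <;> simp [sg]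
lemma abs_sg (b : Bool) : |sg b| = 1 := by cases b <;> simp [sg]

lemma sum_signs_complex (N : ℕ) (t : Fin N → ℝ) (k : Fin N) :
    ∑ ε : Fin N → Bool, ((sg (ε k) : ℝ) : ℂ) * Complex.exp (((∑ j, sg (ε j) * t j : ℝ) : ℂ) * Complex.I)
      = (2 : ℂ) ^ N * (Complex.I * Real.sin (t k) * ∏ j ∈ Finset.univ.erase k, (Real.cos (t j) : ℂ)) := by
  classical
  let g : Fin N → Bool → ℂ := fun j b =>
    (if j = k then ((sg b : ℝ) : ℂ) else 1) * Complex.exp (((sg b * t j : ℝ) : ℂ) * Complex.I)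
  have h1 : ∀ ε : Fin N → Bool,
      ((sg (ε k) : ℝ) : ℂ) * Complex.exp (((∑ j, sg (ε j) * t j : ℝ) : ℂ) * Complex.I)
        = ∏ j, g j (ε j) := by
    intro ε
    simp only [g]
    rw [Finset.prod_mul_distrib, Finset.prod_ite_eq' Finset.univ k]
    simp only [Finset.mem_univ, if_true]
    rw [← Complex.exp_sum]
    congr 2
    push_cast
    rw [Finset.sum_mul]
  rw [Finset.sum_congr rfl (fun ε _ => h1 ε)]
  have h2 := Finset.prod_univ_sum (fun _ : Fin N => (Finset.univ : Finset Bool)) (fun j b => g j b)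
  rw [Fintype.piFinset_univ] at h2
  rw [← h2]
  have h3 : ∀ j, ∑ b ∈ (Finset.univ : Finset Bool), g j b
      = 2 * (if j = k then Complex.I * Real.sin (t j) else Real.cos (t j)) := by
    intro j
    have hT : Complex.exp (((t j : ℝ) : ℂ) * Complex.I)
        = Real.cos (t j) + Real.sin (t j) * Complex.I := by
      rw [Complex.exp_mul_I, Complex.ofReal_cos, Complex.ofReal_sin]
    have hF : Complex.exp ((((-(t j)) : ℝ) : ℂ) * Complex.I)
        = Real.cos (t j) - Real.sin (t j) * Complex.I := by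
      rw [Complex.exp_mul_I, ← Complex.ofReal_cos, ← Complex.ofReal_sin, Real.cos_neg, Real.sin_neg]
      push_cast
      ring
    have hs1 : (sg true * t j) = t j := by simp [sg]
    have hs2 : (sg false * t j) = - t j := by simp [sg]
    simp only [Fintype.sum_bool, g, hs1, hs2, hT, hF]
    by_cases hj : j = k
    · simp only [hj, if_true, sg]
      push_cast
      simp
      ring
    · simp only [hj, if_false]
      ring
  rw [Finset.prod_congr rfl (fun j _ => h3 j)]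
  rw [Finset.prod_mul_distrib]
  congr 1
  · simp
  · rw [← Finset.mul_prod_erase Finset.univ _ (Finset.mem_univ k)]
    simp only [if_true]
    congr 1
    apply Finset.prod_congr rfl
    intro j hj
    rw [if_neg (Finset.ne_of_mem_erase hj)]

lemma sum_signs (N : ℕ) (t : Fin N → ℝ) (k : Fin N) :
    ∑ ε : Fin N → Bool, sg (ε k) * Real.sin (∑ j, sg (ε j) * t j)
      = 2 ^ N * (Real.sin (t k) * ∏ j ∈ Finset.univ.erase k, Real.cos (t j)) := by
  have h := congrArg Complex.im (sum_signs_complex N t k)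
  rw [Complex.im_sum] at h
  have h1 : ∀ ε : Fin N → Bool,
      (((sg (ε k) : ℝ) : ℂ) * Complex.exp (((∑ j, sg (ε j) * t j : ℝ) : ℂ) * Complex.I)).im
      = sg (ε k) * Real.sin (∑ j, sg (ε j) * t j) := by
    intro ε
    rw [Complex.im_ofReal_mul, Complex.exp_ofReal_mul_I_im]
  rw [Finset.sum_congr rfl (fun ε _ => h1 ε)] at h
  rw [h]
  have h2 : (2 : ℂ) ^ N * (Complex.I * Real.sin (t k) * ∏ j ∈ Finset.univ.erase k, (Real.cos (t j) : ℂ))
      = ((2 ^ N * (Real.sin (t k) * ∏ j ∈ Finset.univ.erase k, Real.cos (t j)) : ℝ) : ℂ) * Complex.I := by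
    push_cast
    ring
  rw [h2, Complex.im_ofReal_mul, Complex.I_im, mul_one]

lemma one_sub_sum_le_prod {ι : Type*} (s : Finset ι) (x : ι → ℝ) (h0 : ∀ i ∈ s, 0 ≤ x i)
    (h1 : ∀ i ∈ s, x i ≤ 1) : 1 - ∑ i ∈ s, (1 - x i) ≤ ∏ i ∈ s, x i := by
  classical
  induction s using Finset.induction_on with
  | empty => simp
  | insert a s ha ih =>
    rw [Finset.sum_insert ha, Finset.prod_insert ha]
    have h3 := ih (fun i hi => h0 i (Finset.mem_insert_of_mem hi))
      (fun i hi => h1 i (Finset.mem_insert_of_mem hi))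
    have h4 : ∏ i ∈ s, x i ≤ 1 := Finset.prod_le_one
      (fun i hi => h0 i (Finset.mem_insert_of_mem hi))
      (fun i hi => h1 i (Finset.mem_insert_of_mem hi))
    have h5 := h1 a (Finset.mem_insert_self a s)
    nlinarith

/-- pointwise estimate -/
lemma pointwise_bound (N : ℕ) (a : ℝ) (ha0 : 0 < a) (ha1 : a ≤ 1) (w : Fin N → ℝ)
    (hw : ∀ j, |w j| ≤ 1) (k : Fin N) :
    |Real.sin (a * w k) * ∏ j ∈ Finset.univ.erase k, Real.cos (a * w j) - a * w k|
      ≤ a * ((N : ℝ) * a ^ 2) := by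
  have hN : (1 : ℝ) ≤ N := by
    have : 1 ≤ N := by have := k.2; omega
    exact_mod_cast this
  set P := ∏ j ∈ Finset.univ.erase k, Real.cos (a * w j) with hP
  have haw : ∀ j, |a * w j| ≤ a := by
    intro j
    rw [abs_mul, abs_of_pos ha0]
    nlinarith [hw j, abs_nonneg (w j)]
  have hcos : ∀ j, 1 - Real.cos (a * w j) ≤ a ^ 2 / 2 := by
    intro j
    have h1 := Real.one_sub_sq_div_two_le_cos (x := a * w j)
    have h2 : (a * w j) ^ 2 ≤ a ^ 2 := by
      rw [← sq_abs (a * w j)]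
      have := haw j
      have h0 := abs_nonneg (a * w j)
      nlinarith
    linarith
  have hcos0 : ∀ j, 0 ≤ Real.cos (a * w j) := by
    intro j
    have h1 := hcos j
    nlinarith
  have hP1 : P ≤ 1 := Finset.prod_le_one (fun i _ => hcos0 i) (fun i _ => Real.cos_le_one _)
  have hP0 : 0 ≤ P := Finset.prod_nonneg (fun i _ => hcos0 i)
  have hPlow : 1 - P ≤ ((N : ℝ) - 1) * (a ^ 2 / 2) := by
    have h1 := one_sub_sum_le_prod (Finset.univ.erase k) (fun j => Real.cos (a * w j))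
      (fun i _ => hcos0 i) (fun i _ => Real.cos_le_one _)
    have h2 : ∑ i ∈ Finset.univ.erase k, (1 - Real.cos (a * w i)) ≤
        ∑ i ∈ (Finset.univ.erase k : Finset (Fin N)), (a ^ 2 / 2) :=
      Finset.sum_le_sum (fun i _ => hcos i)
    rw [Finset.sum_const, Finset.card_erase_of_mem (Finset.mem_univ k), Finset.card_univ,
      Fintype.card_fin, nsmul_eq_mul] at h2
    have h3 : ((N - 1 : ℕ) : ℝ) = (N : ℝ) - 1 := by
      have : 1 ≤ N := by have := k.2; omega
      push_cast [Nat.cast_sub this]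
      ring
    rw [h3] at h2
    linarith
  have hsin : |Real.sin (a * w k) - a * w k| ≤ a * (a ^ 2 / 6) := by
    have key : ∀ x : ℝ, 0 ≤ x → x ≤ a → |Real.sin x - x| ≤ a * (a ^ 2 / 6) := by
      intro x hx0 hxa
      rcases eq_or_lt_of_le hx0 with h | h
      · rw [← h]; simp; positivity
      · have h1 := Real.sin_gt_sub_cube h
        have h2 := Real.sin_lt h
        rw [abs_le]
        constructor
        · have : x ^ 3 ≤ a ^ 3 := by gcongr
          nlinarith
        · nlinarith [pow_pos ha0 3]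
    rcases le_total 0 (a * w k) with h | h
    · exact key _ h (le_trans (le_abs_self _) (haw k))
    · have h1 := key (-(a * w k)) (by linarith) (le_trans (neg_le_abs _) (haw k))
      rw [Real.sin_neg] at h1
      rw [← abs_neg]
      convert h1 using 2
      ring
  have e : Real.sin (a * w k) * P - a * w k
      = (Real.sin (a * w k) - a * w k) * P - (a * w k) * (1 - P) := by ring
  rw [e]
  calc |(Real.sin (a * w k) - a * w k) * P - (a * w k) * (1 - P)|
      ≤ |(Real.sin (a * w k) - a * w k) * P| + |(a * w k) * (1 - P)| := abs_sub _ _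
    _ = |Real.sin (a * w k) - a * w k| * P + |a * w k| * (1 - P) := by
        rw [abs_mul, abs_mul, abs_of_nonneg hP0, abs_of_nonneg (by linarith : 0 ≤ 1 - P)]
    _ ≤ (a * (a ^ 2 / 6)) * 1 + a * (((N : ℝ) - 1) * (a ^ 2 / 2)) := by
        gcongr
        · exact haw k
    _ ≤ a * ((N : ℝ) * a ^ 2) := by
        nlinarith [pow_pos ha0 3]

/-- Combination of scales by random signs. -/
lemma exists_signs {S : Type*} [TopologicalSpace S] [CompactSpace S]
    (m : ℕ) (hm : 1 ≤ m) (L : Fin (m ^ 2) → (C(S, ℝ) →L[ℝ] ℝ)) (Om : Fin (m ^ 2) → C(S, ℝ))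
    (C₁ c₁ A : ℝ) (hC₁ : 0 < C₁) (hc₁ : 0 < c₁) (hA : 1 ≤ A) (hAC : 2 * C₁ ≤ c₁ * A ^ 2)
    (hL : ∀ k g, |L k g| ≤ C₁ * ‖g‖) (hOm : ∀ k ω, |Om k ω| ≤ 1)
    (hLow : ∀ k, c₁ ≤ L k (Om k)) :
    ∃ ε : Fin (m ^ 2) → Bool, ∃ Φ : C(S, ℝ),
      (∀ ω, Φ ω = Real.sin (∑ j, sg (ε j) * ((1 / (A * m)) * Om j ω))) ∧
      m * c₁ / (2 * A) ≤ ∑ k, sg (ε k) * L k Φ := by
  classical
  have hm0 : (1 : ℝ) ≤ m := by exact_mod_cast hm
  set a : ℝ := 1 / (A * m) with ha
  have hAm : 1 ≤ A * m := by nlinarith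
  have ha0 : 0 < a := by positivity
  have ha1 : a ≤ 1 := by
    rw [ha, div_le_one (by positivity)]; exact hAm
  let Φ : (Fin (m ^ 2) → Bool) → C(S, ℝ) := fun ε =>
    ⟨fun ω => Real.sin (∑ j, sg (ε j) * (a * Om j ω)), by fun_prop⟩
  let H : Fin (m ^ 2) → C(S, ℝ) := fun k =>
    ⟨fun ω => Real.sin (a * Om k ω) * ∏ j ∈ Finset.univ.erase k, Real.cos (a * Om j ω), by fun_prop⟩
  have hsum : ∀ k, ∑ ε, sg (ε k) • Φ ε = (2 : ℝ) ^ (m ^ 2) • H k := by
    intro k
    ext ω
    rw [ContinuousMap.sum_apply]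
    simp only [ContinuousMap.coe_smul, Pi.smul_apply, smul_eq_mul, Φ, H, ContinuousMap.coe_mk]
    exact sum_signs (m ^ 2) (fun j => a * Om j ω) k
  have hH : ∀ k, a * (c₁ / 2) ≤ L k (H k) := by
    intro k
    have h1 : ‖H k - a • Om k‖ ≤ a * (((m ^ 2 : ℕ) : ℝ) * a ^ 2) := by
      rw [ContinuousMap.norm_le _ (by positivity)]
      intro ω
      have := pointwise_bound (m ^ 2) a ha0 ha1 (fun j => Om j ω) (fun j => hOm j ω) k
      simpa [H] using this
    have h2 : ((m ^ 2 : ℕ) : ℝ) * a ^ 2 = 1 / A ^ 2 := by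
      rw [ha]; push_cast; field_simp
    rw [h2] at h1
    have h3 := hL k (H k - a • Om k)
    rw [map_sub, map_smul, smul_eq_mul] at h3
    have h4 := (abs_le.mp h3).1
    have h5 : C₁ * ‖H k - a • Om k‖ ≤ C₁ * (a * (1 / A ^ 2)) := by gcongr
    have h6 : C₁ * (a * (1 / A ^ 2)) ≤ a * (c₁ / 2) := by
      have : C₁ * (1 / A ^ 2) ≤ c₁ / 2 := by
        rw [mul_one_div, div_le_iff₀ (by positivity)]
        linarith
      nlinarith
    have h7 : a * c₁ ≤ a * L k (Om k) := by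
      have := hLow k
      gcongr
    linarith
  have htot : ∑ ε : Fin (m ^ 2) → Bool, (m * c₁ / (2 * A)) ≤
      ∑ ε : Fin (m ^ 2) → Bool, ∑ k, sg (ε k) * L k (Φ ε) := by
    rw [Finset.sum_comm]
    have h1 : ∀ k, ∑ ε : Fin (m ^ 2) → Bool, sg (ε k) * L k (Φ ε) = 2 ^ (m ^ 2) * L k (H k) := by
      intro k
      have h2 := congrArg (L k) (hsum k)
      rw [map_sum, map_smul, smul_eq_mul] at h2
      rw [← h2]
      apply Finset.sum_congr rfl
      intro ε _
      rw [map_smul, smul_eq_mul]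
    rw [Finset.sum_congr rfl (fun k _ => h1 k)]
    rw [Finset.sum_const, Finset.card_univ, nsmul_eq_mul]
    simp only [Fintype.card_pi, Fintype.card_bool, Finset.prod_const, Finset.card_univ,
      Fintype.card_fin]
    rw [← Finset.mul_sum]
    push_cast
    apply mul_le_mul_of_nonneg_left _ (by positivity)
    calc (m : ℝ) * c₁ / (2 * A) = ∑ k : Fin (m ^ 2), a * (c₁ / 2) := by
          rw [Finset.sum_const, Finset.card_univ, Fintype.card_fin, nsmul_eq_mul, ha]
          push_cast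
          field_simp
      _ ≤ ∑ k, L k (H k) := Finset.sum_le_sum (fun k _ => hH k)
  obtain ⟨ε, -, hε⟩ := Finset.exists_le_of_sum_le (Finset.univ_nonempty) htot
  exact ⟨ε, Φ ε, fun ω => rfl, hε⟩

end signs

section kernel

variable {d : ℕ}

lemma kernel_of_ne (Ω : S d → ℝ) {z : E d} (hz : z ≠ 0) :
    kernel Ω z = Ω ⟨‖z‖⁻¹ • z, by simp [norm_smul, hz]⟩ / ‖z‖ ^ d := by
  rw [kernel, dif_neg hz]

lemma measurable_kernel (Ω : C(S d, ℝ)) : Measurable (kernel (Ω : S d → ℝ)) := by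
  apply measurable_of_continuousOn_compl_singleton 0
  rw [continuousOn_iff_continuous_domRestrict]
  have : (({0}ᶜ : Set (E d)).domRestrict (kernel (Ω : S d → ℝ))) = fun z : ({0}ᶜ : Set (E d)) =>
      Ω ⟨‖(z : E d)‖⁻¹ • (z : E d), by
        have hz : (z : E d) ≠ 0 := z.2
        simp [norm_smul, hz]⟩ / ‖(z : E d)‖ ^ d := by
    ext z
    exact kernel_of_ne _ z.2
  rw [this]
  apply Continuous.div
  · apply Ω.continuous.comp
    apply Continuous.subtype_mk
    apply Continuous.fun_smul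
    · apply Continuous.inv₀ (by fun_prop)
      intro z
      have hz : (z : E d) ≠ 0 := z.2
      simpa using hz
    · fun_prop
  · fun_prop
  · intro z
    have hz : (z : E d) ≠ 0 := z.2
    positivity

lemma abs_kernel_le (Ω : C(S d, ℝ)) (z : E d) : |kernel (Ω : S d → ℝ) z| ≤ ‖Ω‖ / ‖z‖ ^ d := by
  by_cases hz : z = 0
  · simp only [kernel, hz, dif_pos, abs_zero]
    positivity
  · rw [kernel_of_ne _ hz, abs_div, abs_of_nonneg (by positivity : (0 : ℝ) ≤ ‖z‖ ^ d)]
    gcongr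
    exact Ω.norm_coe_le_norm _

lemma kernel_add (Ω₁ Ω₂ : C(S d, ℝ)) (z : E d) :
    kernel ((Ω₁ + Ω₂ : C(S d, ℝ)) : S d → ℝ) z = kernel (Ω₁ : S d → ℝ) z + kernel (Ω₂ : S d → ℝ) z := by
  by_cases hz : z = 0
  · simp [kernel, hz]
  · rw [kernel_of_ne _ hz, kernel_of_ne _ hz, kernel_of_ne _ hz]
    simp [add_div]

lemma kernel_smul (a : ℝ) (Ω : C(S d, ℝ)) (z : E d) :
    kernel ((a • Ω : C(S d, ℝ)) : S d → ℝ) z = a * kernel (Ω : S d → ℝ) z := by
  by_cases hz : z = 0
  · simp [kernel, hz]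
  · rw [kernel_of_ne _ hz, kernel_of_ne _ hz]
    simp [mul_div_assoc]

end kernel

section psi

variable {n : ℕ}

/-- truncated sign -/
noncomputable def tsgn (t : ℝ) : ℝ := if 1 / 2 ≤ t then 1 else if t ≤ -1 / 2 then -1 else 0

lemma measurable_tsgn : Measurable tsgn := by
  unfold tsgn
  apply Measurable.ite (measurableSet_le measurable_const measurable_id) measurable_const
  exact Measurable.ite (measurableSet_le measurable_id measurable_const)
    measurable_const measurable_const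

lemma abs_tsgn_le (t : ℝ) : |tsgn t| ≤ 1 := by
  unfold tsgn
  split_ifs <;> simp

lemma tsgn_neg (t : ℝ) : tsgn (-t) = - tsgn t := by
  unfold tsgn
  by_cases h1 : 1 / 2 ≤ t
  · rw [if_neg (by linarith), if_pos (by linarith), if_pos h1]
  · by_cases h2 : t ≤ -1 / 2
    · rw [if_pos (by linarith), if_neg h1, if_pos h2]
      norm_num
    · rw [if_neg (by linarith), if_neg (by linarith), if_neg h1, if_neg h2]
      norm_num

/-- the test function on the unit ball -/
noncomputable def psi (x : E (n + 2)) : ℝ := tsgn (x 0)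

lemma measurable_psi : Measurable (psi : E (n + 2) → ℝ) :=
  measurable_tsgn.comp (by fun_prop)

lemma abs_psi_le (x : E (n + 2)) : |psi x| ≤ 1 := abs_tsgn_le _

lemma psi_neg (x : E (n + 2)) : psi (-x) = - psi x := by
  unfold psi
  rw [PiLp.neg_apply, tsgn_neg]

lemma integral_psi : ∫ x in ball (0 : E (n + 2)) 1, psi x = 0 := by
  have h1 : ∫ x in ball (0 : E (n + 2)) 1, psi x = ∫ x in ball (0 : E (n + 2)) 1, psi (-x) := by
    rw [← integral_indicator measurableSet_ball, ← integral_indicator measurableSet_ball]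
    rw [← integral_neg_eq_self]
    congr 1
    ext x
    by_cases hx : x ∈ ball (0 : E (n + 2)) 1
    · have hx' : -x ∈ ball (0 : E (n + 2)) 1 := by simpa using hx
      rw [indicator_of_mem hx, indicator_of_mem hx']
    · have hx' : -x ∉ ball (0 : E (n + 2)) 1 := by simpa using hx
      rw [indicator_of_notMem hx, indicator_of_notMem hx']
  simp only [psi_neg, integral_neg] at h1
  linarith

end psi

section functional

variable {n : ℕ}

/-- admissible test functions -/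
structure Adm (f : E (n + 2) → ℝ) : Prop where
  meas : Measurable f
  bdd : ∀ x, |f x| ≤ 1
  zero : ∀ x ∈ ball (0 : E (n + 2)) 2, f x = 0
  far : ∃ R : ℝ, ∀ x, R < ‖x‖ → f x = 0

/-- the integrand of the test functional -/
noncomputable def F (f : E (n + 2) → ℝ) (Ω : S (n + 2) → ℝ) (p : E (n + 2) × E (n + 2)) : ℝ :=
  psi p.1 * (kernel Ω (p.1 - p.2) * f p.2)

/-- the reference measure -/
noncomputable def nu (n : ℕ) : Measure (E (n + 2) × E (n + 2)) :=
  (volume.restrict (ball (0 : E (n + 2)) 1)).prod volume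

lemma measurable_F {f : E (n + 2) → ℝ} (hf : Measurable f) (Ω : C(S (n + 2), ℝ)) :
    Measurable (F f (Ω : S (n + 2) → ℝ)) := by
  unfold F
  have h1 := measurable_kernel Ω
  have h2 := measurable_psi (n := n)
  fun_prop

lemma abs_kernel_mul_le {f : E (n + 2) → ℝ} (hf : Adm f) (Ω : C(S (n + 2), ℝ))
    {x y : E (n + 2)} (hx : ‖x‖ < 1) :
    |kernel (Ω : S (n + 2) → ℝ) (x - y) * f y| ≤ ‖Ω‖ * |f y| := by
  by_cases hy : ‖y‖ < 2
  · rw [hf.zero y (by simpa using hy)]
    simp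
  · push Not at hy
    have h1 : 1 ≤ ‖x - y‖ := by
      have := norm_sub_norm_le y x
      rw [norm_sub_rev] at this
      linarith
    rw [abs_mul]
    gcongr
    refine (abs_kernel_le Ω _).trans ?_
    apply div_le_self (norm_nonneg _)
    exact one_le_pow₀ h1

lemma integrable_F {f : E (n + 2) → ℝ} (hf : Adm f) (Ω : C(S (n + 2), ℝ)) :
    Integrable (F f (Ω : S (n + 2) → ℝ)) (nu n) := by
  obtain ⟨R, hR⟩ := hf.far
  have hbound : Integrable (fun p : E (n + 2) × E (n + 2) =>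
      (1 : ℝ) * ((closedBall (0 : E (n + 2)) R).indicator (fun _ => ‖Ω‖) p.2)) (nu n) := by
    apply Integrable.mul_prod (f := fun _ => (1 : ℝ))
      (g := (closedBall (0 : E (n + 2)) R).indicator (fun _ => ‖Ω‖))
    · apply integrable_const_iff.mpr
      right
      constructor
      simpa using measure_ball_lt_top
    · apply IntegrableOn.integrable_indicator _ measurableSet_closedBall
      exact integrableOn_const measure_closedBall_lt_top.ne enorm_ne_top
  refine Integrable.mono' hbound (measurable_F hf.meas Ω).aestronglyMeasurable ?_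
  have hae : ∀ᵐ p ∂(nu n), p.1 ∈ ball (0 : E (n + 2)) 1 := by
    have h1 : ∀ᵐ x ∂(volume.restrict (ball (0 : E (n + 2)) 1)), x ∈ ball (0 : E (n + 2)) 1 :=
      ae_restrict_mem measurableSet_ball
    exact Measure.quasiMeasurePreserving_fst.ae h1
  filter_upwards [hae] with p hp
  have hp' : ‖p.1‖ < 1 := by simpa using hp
  have h2 := abs_kernel_mul_le hf Ω (x := p.1) (y := p.2) hp'
  have h3 : ‖Ω‖ * |f p.2| ≤ (closedBall (0 : E (n + 2)) R).indicator (fun _ => ‖Ω‖) p.2 := by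
    by_cases hy : p.2 ∈ closedBall (0 : E (n + 2)) R
    · rw [indicator_of_mem hy]
      have := hf.bdd p.2
      nlinarith [norm_nonneg Ω]
    · rw [indicator_of_notMem hy, hR p.2 (by simpa using hy)]
      simp
  rw [one_mul, Real.norm_eq_abs, F, abs_mul]
  calc |psi p.1| * |kernel (Ω : S (n + 2) → ℝ) (p.1 - p.2) * f p.2|
      ≤ 1 * |kernel (Ω : S (n + 2) → ℝ) (p.1 - p.2) * f p.2| := by
        gcongr
        exact abs_psi_le _
    _ ≤ _ := by rw [one_mul]; exact h2.trans h3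

/-- the test functional -/
noncomputable def J (f : E (n + 2) → ℝ) (Ω : S (n + 2) → ℝ) : ℝ := ∫ p, F f Ω p ∂(nu n)

lemma T_eq {f : E (n + 2) → ℝ} (hf : Adm f) (Ω : C(S (n + 2), ℝ)) {x : E (n + 2)}
    (hx : ‖x‖ < 1) :
    g (Ω : S (n + 2) → ℝ) f 0 1 x = ∫ y, kernel (Ω : S (n + 2) → ℝ) (x - y) * f y := by
  have h1 : ((ball (0 : E (n + 2)) (2 * 1))ᶜ.indicator f) = f := by
    ext y
    by_cases hy : y ∈ ball (0 : E (n + 2)) (2 * 1)
    · rw [indicator_of_notMem (by simpa using hy)]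
      exact (hf.zero y (by simpa using hy)).symm
    · rw [indicator_of_mem (by simpa using hy)]
  rw [g, h1, T]
  apply Tendsto.limUnder_eq
  apply tendsto_const_nhds.congr'
  have : Ioo (0 : ℝ) 1 ∈ 𝓝[>] (0 : ℝ) := Ioo_mem_nhdsGT one_pos
  filter_upwards [this] with ε hε
  rw [setIntegral_eq_integral_of_forall_compl_eq_zero]
  · rw [← integral_sub_left_eq_self (fun y => kernel (Ω : S (n + 2) → ℝ) y * f (x - y)) volume x]
    simp
  · intro y hy
    simp only [mem_ofPred_eq, not_lt] at hy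
    have : f (x - y) = 0 := by
      apply hf.zero
      have := norm_sub_le x y
      simp only [mem_ball, dist_zero_right]
      linarith [hε.2]
    rw [this, mul_zero]

lemma ae_fst_mem : ∀ᵐ p ∂(nu n), ‖p.1‖ < 1 := by
  have h1 : ∀ᵐ x ∂(volume.restrict (ball (0 : E (n + 2)) 1)), ‖x‖ < 1 := by
    filter_upwards [ae_restrict_mem measurableSet_ball] with x hx
    simpa using hx
  exact Measure.quasiMeasurePreserving_fst.ae h1

lemma integrable_F' {f : E (n + 2) → ℝ} (hf : Adm f) (Ω : C(S (n + 2), ℝ)) :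
    Integrable (fun p : E (n + 2) × E (n + 2) => kernel (Ω : S (n + 2) → ℝ) (p.1 - p.2) * f p.2)
      (nu n) := by
  obtain ⟨R, hR⟩ := hf.far
  have hbound : Integrable (fun p : E (n + 2) × E (n + 2) =>
      (1 : ℝ) * ((closedBall (0 : E (n + 2)) R).indicator (fun _ => ‖Ω‖) p.2)) (nu n) := by
    apply Integrable.mul_prod (f := fun _ => (1 : ℝ))
      (g := (closedBall (0 : E (n + 2)) R).indicator (fun _ => ‖Ω‖))
    · apply integrable_const_iff.mpr
      right
      constructor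
      simpa using measure_ball_lt_top
    · apply IntegrableOn.integrable_indicator _ measurableSet_closedBall
      exact integrableOn_const measure_closedBall_lt_top.ne enorm_ne_top
  refine Integrable.mono' hbound ?_ ?_
  · have h1 := measurable_kernel Ω
    have h2 := hf.meas
    exact Measurable.aestronglyMeasurable (by fun_prop)
  filter_upwards [ae_fst_mem] with p hp'
  have h2 := abs_kernel_mul_le hf Ω (x := p.1) (y := p.2) hp'
  have h3 : ‖Ω‖ * |f p.2| ≤ (closedBall (0 : E (n + 2)) R).indicator (fun _ => ‖Ω‖) p.2 := by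
    by_cases hy : p.2 ∈ closedBall (0 : E (n + 2)) R
    · rw [indicator_of_mem hy]
      have := hf.bdd p.2
      nlinarith [norm_nonneg Ω]
    · rw [indicator_of_notMem hy, hR p.2 (by simpa using hy)]
      simp
  rw [one_mul, Real.norm_eq_abs]
  exact h2.trans h3

lemma J_eq {f : E (n + 2) → ℝ} (hf : Adm f) (Ω : C(S (n + 2), ℝ)) :
    J f (Ω : S (n + 2) → ℝ)
      = ∫ x in ball (0 : E (n + 2)) 1, psi x * g (Ω : S (n + 2) → ℝ) f 0 1 x := by
  have h1 := integrable_F hf Ω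
  rw [J, nu, integral_prod _ h1]
  apply setIntegral_congr_fun measurableSet_ball
  intro x hx
  simp only [F]
  rw [integral_const_mul, T_eq hf Ω (by simpa using hx)]

lemma integrable_g {f : E (n + 2) → ℝ} (hf : Adm f) (Ω : C(S (n + 2), ℝ)) :
    IntegrableOn (g (Ω : S (n + 2) → ℝ) f 0 1) (ball (0 : E (n + 2)) 1) := by
  have h1 := (integrable_F' hf Ω).integral_prod_left
  refine (integrable_congr ?_).mp h1
  filter_upwards [ae_restrict_mem measurableSet_ball] with x hx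
  rw [T_eq hf Ω (by simpa using hx)]

lemma lintegral_le_sqrt {α : Type*} [MeasurableSpace α] (μ : Measure α) (H : α → ℝ≥0∞)
    (hH : AEMeasurable H μ) :
    ∫⁻ a, H a ∂μ ≤ (∫⁻ a, H a ^ 2 ∂μ) ^ (1 / 2 : ℝ) * (μ univ) ^ (1 / 2 : ℝ) := by
  have h := ENNReal.lintegral_mul_le_Lp_mul_Lq μ (p := 2) (q := 2) Real.HolderConjugate.two_two
    hH (g := fun _ => 1) aemeasurable_const
  simpa using h

lemma abs_J_le_osc {f : E (n + 2) → ℝ} (hf : Adm f) (Ω : C(S (n + 2), ℝ)) (K : ℝ≥0)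
    (hK : osc (Ω : S (n + 2) → ℝ) f 0 1 ≤ K) :
    |J f (Ω : S (n + 2) → ℝ)| ≤ K * volume.real (ball (0 : E (n + 2)) 1) := by
  set B := ball (0 : E (n + 2)) 1 with hB
  set V := volume B with hV
  have hV0 : V ≠ 0 := (measure_ball_pos volume _ one_pos).ne'
  have hVt : V ≠ ∞ := measure_ball_lt_top.ne
  set G := g (Ω : S (n + 2) → ℝ) f 0 1 with hG
  have hGi : Integrable G (volume.restrict B) := integrable_g hf Ω
  set μ := volume.restrict B with hμ
  have hfin : IsFiniteMeasure μ := ⟨by simpa [hμ] using measure_ball_lt_top⟩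
  have hdiff : Integrable (fun p : E (n + 2) × E (n + 2) => G p.1 - G p.2) (μ.prod μ) :=
    (hGi.comp_fst μ).sub (hGi.comp_snd μ)
  -- second moment
  have hI2 : ∫⁻ p, ‖G p.1 - G p.2‖ₑ ^ 2 ∂(μ.prod μ) ≤ (K : ℝ≥0∞) ^ 2 * V ^ 2 := by
    rw [lintegral_prod _ (hdiff.aestronglyMeasurable.enorm.pow_const 2)]
    rw [osc] at hK
    have h1 : (V⁻¹ ^ 2 * ∫⁻ x in B, ∫⁻ y in B, ‖G x - G y‖ₑ ^ 2) ≤ (K : ℝ≥0∞) ^ 2 := by
      have := ENNReal.rpow_le_rpow hK (by norm_num : (0 : ℝ) ≤ 2)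
      rw [← ENNReal.rpow_mul] at this
      norm_num at this
      exact this
    calc ∫⁻ x, ∫⁻ y, ‖G x - G y‖ₑ ^ 2 ∂μ ∂μ
        = (V⁻¹ ^ 2 * ∫⁻ x in B, ∫⁻ y in B, ‖G x - G y‖ₑ ^ 2) * V ^ 2 := by
          rw [mul_right_comm, ← mul_pow, ENNReal.inv_mul_cancel hV0 hVt, one_pow, one_mul]
      _ ≤ _ := by gcongr
  have hI1 : ∫⁻ p, ‖G p.1 - G p.2‖ₑ ∂(μ.prod μ) ≤ (K : ℝ≥0∞) * V * V := by
    refine (lintegral_le_sqrt _ _ hdiff.aestronglyMeasurable.enorm).trans ?_
    have h2 : (μ.prod μ) univ = V ^ 2 := by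
      rw [← univ_prod_univ, Measure.prod_prod, hμ, Measure.restrict_apply_univ, sq]
    rw [h2]
    calc (∫⁻ p, ‖G p.1 - G p.2‖ₑ ^ 2 ∂(μ.prod μ)) ^ (1 / 2 : ℝ) * (V ^ 2) ^ (1 / 2 : ℝ)
        ≤ ((K : ℝ≥0∞) ^ 2 * V ^ 2) ^ (1 / 2 : ℝ) * (V ^ 2) ^ (1 / 2 : ℝ) := by gcongr
      _ = (K : ℝ≥0∞) * V * V := by
          rw [← mul_pow, ← ENNReal.rpow_natCast, ← ENNReal.rpow_mul, ← ENNReal.rpow_natCast,
            ← ENNReal.rpow_mul]
          norm_num
  have hpsi : Integrable (psi : E (n + 2) → ℝ) μ :=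
    Integrable.of_bound measurable_psi.aestronglyMeasurable 1
      (Eventually.of_forall fun x => abs_psi_le x)
  have hpsiG : Integrable (fun x => psi x * G x) μ :=
    hGi.bdd_mul measurable_psi.aestronglyMeasurable (c := 1)
      (Eventually.of_forall fun x => abs_psi_le x)
  have hv : (μ univ).toReal = V.toReal := by rw [hμ, Measure.restrict_apply_univ]
  have e1 : ∫ p, (psi p.1 * G p.1) * 1 ∂(μ.prod μ) = J f (Ω : S (n + 2) → ℝ) * V.toReal := by
    rw [integral_prod_mul (fun x => psi x * G x) (fun _ => (1 : ℝ)), J_eq hf Ω, integral_const,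
      smul_eq_mul, mul_one, Measure.real, hv]
  have e2 : ∫ p, psi p.1 * G p.2 ∂(μ.prod μ) = 0 := by
    rw [integral_prod_mul psi G]
    rw [hμ, integral_psi, zero_mul]
  have e3 : ∫ p, psi p.1 * (G p.1 - G p.2) ∂(μ.prod μ) = J f (Ω : S (n + 2) → ℝ) * V.toReal := by
    rw [← e1, ← sub_zero (∫ p, (psi p.1 * G p.1) * 1 ∂(μ.prod μ)), ← e2, ← integral_sub]
    · congr 1
      ext p
      ring
    · exact hpsiG.mul_prod (integrable_const _)
    · exact hpsi.mul_prod hGi
  have e4 : |J f (Ω : S (n + 2) → ℝ) * V.toReal| ≤ (K : ℝ) * V.toReal * V.toReal := by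
    rw [← e3, ← Real.norm_eq_abs]
    calc ‖∫ p, psi p.1 * (G p.1 - G p.2) ∂(μ.prod μ)‖
        ≤ ∫ p, ‖psi p.1 * (G p.1 - G p.2)‖ ∂(μ.prod μ) := norm_integral_le_integral_norm _
      _ ≤ ∫ p, ‖G p.1 - G p.2‖ ∂(μ.prod μ) := by
          apply integral_mono_of_nonneg (Eventually.of_forall fun p => norm_nonneg _) hdiff.norm
          refine Eventually.of_forall fun p => ?_
          simp only [norm_mul]
          have := abs_psi_le p.1
          rw [← Real.norm_eq_abs] at this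
          nlinarith [norm_nonneg (G p.1 - G p.2)]
      _ = (∫⁻ p, ‖G p.1 - G p.2‖ₑ ∂(μ.prod μ)).toReal :=
          integral_norm_eq_lintegral_enorm hdiff.aestronglyMeasurable
      _ ≤ ((K : ℝ≥0∞) * V * V).toReal := by
          apply ENNReal.toReal_mono _ hI1
          exact ENNReal.mul_ne_top (ENNReal.mul_ne_top ENNReal.coe_ne_top hVt) hVt
      _ = (K : ℝ) * V.toReal * V.toReal := by simp
  have hVpos : 0 < V.toReal := ENNReal.toReal_pos hV0 hVt
  rw [abs_mul, abs_of_pos hVpos] at e4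
  exact le_of_mul_le_mul_right e4 hVpos

end functional

section scale

variable {n : ℕ}

/-- test profile on the sphere -/
noncomputable def prof (τ : ℝ → ℝ) (R : ℝ) (ω : S (n + 2)) : ℝ :=
  (ω : E (n + 2)) 1 * τ (R * ((ω : E (n + 2)) 0 / (ω : E (n + 2)) 1))

lemma continuous_prof {τ : ℝ → ℝ} (hτ : Continuous τ) (hb : ∀ x, |τ x| ≤ 1) (R : ℝ) :
    Continuous (prof (n := n) τ R) := by
  have c0 : Continuous (fun ω : S (n + 2) => (ω : E (n + 2)) 0) := by fun_prop
  have c1 : Continuous (fun ω : S (n + 2) => (ω : E (n + 2)) 1) := by fun_prop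
  rw [continuous_iff_continuousAt]
  intro ω
  by_cases h : (ω : E (n + 2)) 1 = 0
  · have h0 : prof τ R ω = 0 := by simp [prof, h]
    rw [ContinuousAt, h0]
    have h1 : Tendsto (fun ω : S (n + 2) => |(ω : E (n + 2)) 1|) (𝓝 ω) (𝓝 0) := by
      have := (c1.abs).tendsto ω
      simpa [h] using this
    apply squeeze_zero_norm _ h1
    intro ω'
    rw [prof, Real.norm_eq_abs, abs_mul]
    have := hb (R * ((ω' : E (n + 2)) 0 / (ω' : E (n + 2)) 1))
    nlinarith [abs_nonneg ((ω' : E (n + 2)) 1)]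
  · unfold prof
    apply ContinuousAt.mul c1.continuousAt
    apply hτ.continuousAt.comp
    exact continuousAt_const.mul (c0.continuousAt.div c1.continuousAt h)

lemma prof_neg (τ : ℝ → ℝ) (R : ℝ) (ω : S (n + 2)) : prof τ R (-ω) = - prof τ R ω := by
  simp [prof]

lemma abs_coord_le_norm (x : E (n + 2)) (i : Fin (n + 2)) : |x i| ≤ ‖x‖ := by
  have := PiLp.norm_apply_le x i
  rwa [Real.norm_eq_abs] at this

lemma abs_prof_le {τ : ℝ → ℝ} (hb : ∀ x, |τ x| ≤ 1) (R : ℝ) (ω : S (n + 2)) :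
    |prof τ R ω| ≤ 1 := by
  have h1 := abs_coord_le_norm (ω : E (n + 2)) 1
  have h2 : ‖(ω : E (n + 2))‖ = 1 := by simp
  rw [prof, abs_mul]
  have := hb (R * ((ω : E (n + 2)) 0 / (ω : E (n + 2)) 1))
  nlinarith [abs_nonneg ((ω : E (n + 2)) 1), abs_nonneg (τ (R * ((ω : E (n + 2)) 0 / (ω : E (n + 2)) 1)))]

lemma kernel_prof (τ : ℝ → ℝ) (R : ℝ) {z : E (n + 2)} (hz : z ≠ 0) :
    kernel (prof τ R) z = (‖z‖⁻¹ * z 1 / ‖z‖ ^ (n + 2)) * τ (R * (z 0 / z 1)) := by
  rw [kernel_of_ne _ hz]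
  have hz' : ‖z‖⁻¹ ≠ 0 := by simpa using hz
  simp only [prof, PiLp.smul_apply, smul_eq_mul]
  rw [mul_div_mul_left _ _ hz']
  ring

/-- the centre at scale `R` -/
noncomputable def yc (R : ℝ) : E (n + 2) := EuclideanSpace.single 1 (-(3 / 2) * R)

/-- the region at scale `R` -/
noncomputable def Y (n : ℕ) (R : ℝ) : Set (E (n + 2)) := closedBall (yc R) (R / 4)

lemma Y_coords {R : ℝ} (hR : 0 < R) {y : E (n + 2)} (hy : y ∈ Y n R) :
    |y 0| ≤ R / 4 ∧ |y 1 + 3 / 2 * R| ≤ R / 4 ∧ 5 / 4 * R ≤ ‖y‖ ∧ ‖y‖ ≤ 7 / 4 * R := by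
  have h0 : ‖y - yc R‖ ≤ R / 4 := by
    have := mem_closedBall_iff_norm.mp hy
    simpa using this
  have h1 := abs_coord_le_norm (y - yc R) 0
  have h2 := abs_coord_le_norm (y - yc R) 1
  have h3 : (yc R : E (n + 2)) 0 = 0 := by simp [yc]
  have h4 : (yc R : E (n + 2)) 1 = -(3 / 2) * R := by simp [yc]
  have h5 : ‖(yc R : E (n + 2))‖ = 3 / 2 * R := by
    rw [yc, PiLp.norm_single, Real.norm_eq_abs, abs_mul, abs_neg, abs_of_pos hR]
    norm_num
  rw [PiLp.sub_apply, h3, sub_zero] at h1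
  rw [PiLp.sub_apply, h4] at h2
  refine ⟨h1.trans h0, ?_, ?_, ?_⟩
  · refine (le_of_eq ?_).trans (h2.trans h0)
    congr 1
    ring
  · have := norm_sub_norm_le (yc R) y
    rw [norm_sub_rev, h5] at this
    linarith
  · have := norm_le_norm_add_norm_sub' y (yc R)
    rw [h5] at this
    linarith

/-- geometric facts on `x - y` -/
lemma geom {R : ℝ} (hR : 4 ≤ R) {x y : E (n + 2)} (hx : ‖x‖ < 1) (hy : y ∈ Y n R) :
    R ≤ (x - y) 1 ∧ (x - y) 1 ≤ 2 * R ∧ R ≤ ‖x - y‖ ∧ ‖x - y‖ ≤ 2 * R := by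
  obtain ⟨h0, h1, h2, h3⟩ := Y_coords (by linarith) hy
  have hx1 := abs_coord_le_norm x 1
  rw [abs_le] at h1 hx1
  have e1 : (x - y) 1 = x 1 - y 1 := by simp
  have a1 : R ≤ (x - y) 1 := by rw [e1]; linarith
  refine ⟨a1, by rw [e1]; linarith, ?_, ?_⟩
  · exact a1.trans ((le_abs_self _).trans (abs_coord_le_norm _ _))
  · have := norm_sub_le x y
    linarith

lemma sin_lower {t : ℝ} (h1 : 3 / 20 ≤ t) (h2 : t ≤ 6 / 5) : 1 / 10 ≤ Real.sin t := by
  have h3 := Real.sin_gt_sub_cube (x := t) (by linarith)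
  nlinarith [mul_nonneg (sub_nonneg.mpr h1) (sub_nonneg.mpr h2), sq_nonneg t]

lemma angle_real {u v k : ℝ} (hk1 : 1 / 2 ≤ k) (hk2 : k ≤ 1) (hu : |u| ≤ 1) (hv : |v| ≤ 1 / 5) :
    tsgn u ^ 2 * (1 / 10) ≤ tsgn u * Real.sin (k * (u + v)) := by
  rw [abs_le] at hu hv
  unfold tsgn
  by_cases c1 : 1 / 2 ≤ u
  · rw [if_pos c1]
    have : 1 / 10 ≤ Real.sin (k * (u + v)) := by
      apply sin_lower
      · nlinarith
      · nlinarith
    linarith
  · by_cases c2 : u ≤ -1 / 2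
    · rw [if_neg c1, if_pos c2]
      have : 1 / 10 ≤ Real.sin (-(k * (u + v))) := by
        apply sin_lower
        · nlinarith
        · nlinarith
      rw [Real.sin_neg] at this
      linarith
    · rw [if_neg c1, if_neg c2]
      norm_num

lemma angle_lower {R : ℝ} (hR : 4 ≤ R) {x y : E (n + 2)} (hx : ‖x‖ < 1) (hy : y ∈ Y n R) :
    psi x ^ 2 * (1 / 10) ≤ psi x * Real.sin (R * ((x - y) 0 / (x - y) 1) - R * (y 0 / y 1)) := by
  obtain ⟨h0, h1, h2, h3⟩ := Y_coords (by linarith) hy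
  obtain ⟨g1, g2, g3, g4⟩ := geom hR hx hy
  have hx1 := abs_coord_le_norm x 1
  have hx0 := abs_coord_le_norm x 0
  have e1 : (x - y) 1 = x 1 - y 1 := by simp
  have e0 : (x - y) 0 = x 0 - y 0 := by simp
  rw [e1] at g1 g2
  rw [e0, e1]
  unfold psi
  have hx0' : |x 0| ≤ 1 := hx0.trans hx.le
  have hx1' : |x 1| ≤ 1 := hx1.trans hx.le
  generalize x 0 = a at *
  generalize x 1 = b at *
  generalize y 0 = s at *
  generalize y 1 = t at *
  rw [abs_le] at h1
  have ht : t < 0 := by linarith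
  have hz0 : 0 < b - t := by linarith
  have hq1 : |s / (-t) * b| ≤ 1 / 5 := by
    rw [abs_mul, abs_div, abs_of_pos (by linarith : 0 < -t)]
    have h5 : |s| / (-t) ≤ 1 / 5 := by
      rw [div_le_iff₀ (by linarith)]
      linarith
    have h6 : 0 ≤ |s| / (-t) := div_nonneg (abs_nonneg _) (by linarith)
    nlinarith [abs_nonneg b]
  have eα : R * ((a - s) / (b - t)) - R * (s / t) = (R / (b - t)) * (a + s / (-t) * b) := by
    have h5 : t ≠ 0 := ht.ne
    have h6 : b - t ≠ 0 := hz0.ne'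
    field_simp
    ring
  rw [eα]
  apply angle_real _ _ hx0' hq1
  · rw [div_le_div_iff₀ (by norm_num) hz0]; linarith
  · rw [div_le_one hz0]; linarith

lemma measurableSet_Y (R : ℝ) : MeasurableSet (Y n R) := measurableSet_closedBall

lemma adm_indicator {R : ℝ} (hR : 4 ≤ R) {h : E (n + 2) → ℝ} (hh : Measurable h)
    (hb : ∀ y, |h y| ≤ 1) : Adm ((Y n R).indicator h) := by
  refine ⟨hh.indicator (measurableSet_Y R), ?_, ?_, ⟨7 / 4 * R, ?_⟩⟩
  · intro y
    by_cases hy : y ∈ Y n R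
    · rw [indicator_of_mem hy]; exact hb y
    · rw [indicator_of_notMem hy]; simp
  · intro y hy
    apply indicator_of_notMem
    intro hy'
    have h1 := (Y_coords (by linarith) hy').2.2.1
    have h2 : ‖y‖ < 2 := by simpa using hy
    linarith
  · intro y hy
    apply indicator_of_notMem
    intro hy'
    have h1 := (Y_coords (by linarith) hy').2.2.2
    linarith

/-- the volume of the unit ball -/
noncomputable def vb (n : ℕ) : ℝ := volume.real (ball (0 : E (n + 2)) 1)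

lemma vb_pos : 0 < vb n :=
  ENNReal.toReal_pos (measure_ball_pos volume _ one_pos).ne' measure_ball_lt_top.ne

lemma vol_Y {R : ℝ} (hR : 0 ≤ R) : volume.real (Y n R) = (R / 4) ^ (n + 2) * vb n := by
  rw [Y, Measure.addHaar_real_closedBall _ _ (by positivity), vb]
  simp

lemma integrable_Y {R : ℝ} (a : ℝ) :
    Integrable ((Y n R).indicator (fun _ => a)) := by
  apply IntegrableOn.integrable_indicator _ (measurableSet_Y R)
  exact integrableOn_const measure_closedBall_lt_top.ne enorm_ne_top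

lemma integral_Y {R : ℝ} (hR : 0 ≤ R) (a : ℝ) :
    ∫ y, (Y n R).indicator (fun _ => a) y = (R / 4) ^ (n + 2) * vb n * a := by
  rw [integral_indicator (measurableSet_Y R), setIntegral_const, vol_Y hR, smul_eq_mul]

lemma J_upper {R : ℝ} (hR : 4 ≤ R) {h : E (n + 2) → ℝ} (hh : Measurable h)
    (hb : ∀ y, |h y| ≤ 1) (Ω : C(S (n + 2), ℝ)) :
    |J ((Y n R).indicator h) (Ω : S (n + 2) → ℝ)| ≤ (vb n ^ 2 * (1 / 4) ^ (n + 2)) * ‖Ω‖ := by
  have hR0 : 0 < R := by linarith
  have hadm := adm_indicator hR hh hb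
  have hcI : Integrable (fun _ : E (n + 2) => (1 : ℝ)) (volume.restrict (ball (0 : E (n + 2)) 1)) := by
    apply integrable_const_iff.mpr
    right
    constructor
    simpa using measure_ball_lt_top
  have hbound : Integrable (fun p : E (n + 2) × E (n + 2) =>
      (1 : ℝ) * ((Y n R).indicator (fun _ => ‖Ω‖ / R ^ (n + 2)) p.2)) (nu n) :=
    Integrable.mul_prod (f := fun _ => (1 : ℝ)) hcI (integrable_Y _)
  have hle : |J ((Y n R).indicator h) (Ω : S (n + 2) → ℝ)| ≤ ∫ p : E (n + 2) × E (n + 2),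
      (1 : ℝ) * ((Y n R).indicator (fun _ => ‖Ω‖ / R ^ (n + 2)) p.2) ∂(nu n) := by
    rw [J, ← Real.norm_eq_abs]
    apply norm_integral_le_of_norm_le hbound
    filter_upwards [ae_fst_mem] with p hp
    rw [Real.norm_eq_abs, F, abs_mul, abs_mul]
    by_cases hy : p.2 ∈ Y n R
    · rw [indicator_of_mem hy, indicator_of_mem hy]
      obtain ⟨g1, g2, g3, g4⟩ := geom hR hp hy
      have a1 := abs_psi_le p.1
      have a2 := hb p.2
      have a3 : |kernel (Ω : S (n + 2) → ℝ) (p.1 - p.2)| ≤ ‖Ω‖ / R ^ (n + 2) := by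
        refine (abs_kernel_le Ω _).trans ?_
        gcongr
      have a4 := abs_nonneg (kernel (Ω : S (n + 2) → ℝ) (p.1 - p.2))
      calc |psi p.1| * (|kernel (Ω : S (n + 2) → ℝ) (p.1 - p.2)| * |h p.2|)
          ≤ 1 * (‖Ω‖ / R ^ (n + 2) * 1) := by gcongr
        _ = 1 * (‖Ω‖ / R ^ (n + 2)) := by ring
    · rw [indicator_of_notMem hy, indicator_of_notMem hy]
      simp
  refine hle.trans (le_of_eq ?_)
  rw [nu, integral_prod_mul (fun _ : E (n + 2) => (1 : ℝ))
    ((Y n R).indicator (fun _ => ‖Ω‖ / R ^ (n + 2))), integral_Y hR0.le]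
  rw [integral_const, smul_eq_mul, mul_one]
  have : (volume.restrict (ball (0 : E (n + 2)) 1)).real univ = vb n := by
    rw [Measure.real, Measure.restrict_apply_univ]; rfl
  rw [this, div_pow, div_pow]
  field_simp
  ring

/-- test functions at scale `R` -/
noncomputable def hS (R : ℝ) (y : E (n + 2)) : ℝ := Real.cos (R * (y 0 / y 1))

/-- test functions at scale `R` -/
noncomputable def hC (R : ℝ) (y : E (n + 2)) : ℝ := - Real.sin (R * (y 0 / y 1))

lemma measurable_hS (R : ℝ) : Measurable (hS R : E (n + 2) → ℝ) := by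
  unfold hS
  fun_prop

lemma measurable_hC (R : ℝ) : Measurable (hC R : E (n + 2) → ℝ) := by
  unfold hC
  fun_prop

lemma abs_hS_le (R : ℝ) (y : E (n + 2)) : |hS R y| ≤ 1 := Real.abs_cos_le_one _

lemma abs_hC_le (R : ℝ) (y : E (n + 2)) : |hC R y| ≤ 1 := by
  rw [hC, abs_neg]
  exact Real.abs_sin_le_one _

/-- profiles at scale `R` -/
noncomputable def OS (n : ℕ) (R : ℝ) : C(S (n + 2), ℝ) :=
  ⟨prof Real.sin R, continuous_prof Real.continuous_sin Real.abs_sin_le_one R⟩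

/-- profiles at scale `R` -/
noncomputable def OC (n : ℕ) (R : ℝ) : C(S (n + 2), ℝ) :=
  ⟨prof Real.cos R, continuous_prof Real.continuous_cos Real.abs_cos_le_one R⟩

/-- lower bound constant -/
noncomputable def c0 (n : ℕ) : ℝ :=
  (∫ x in ball (0 : E (n + 2)) 1, psi x ^ 2) * ((1 / 8) ^ (n + 2) * vb n * (1 / 20))

lemma integral_psi_sq_pos : 0 < ∫ x in ball (0 : E (n + 2)) 1, psi x ^ 2 := by
  have hI : IntegrableOn (fun x : E (n + 2) => psi x ^ 2) (ball (0 : E (n + 2)) 1) := by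
    have : IsFiniteMeasure (volume.restrict (ball (0 : E (n + 2)) 1)) :=
      ⟨by simpa using measure_ball_lt_top⟩
    apply Integrable.of_bound (measurable_psi.pow_const 2).aestronglyMeasurable 1
    refine Eventually.of_forall fun x => ?_
    have := abs_psi_le x
    rw [Real.norm_eq_abs, abs_pow]
    exact pow_le_one₀ (abs_nonneg _) this
  have hsub : ball (EuclideanSpace.single 0 (3 / 4 : ℝ) : E (n + 2)) (1 / 8) ⊆
      ball (0 : E (n + 2)) 1 := by
    intro x hx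
    have h1 : ‖x - EuclideanSpace.single 0 (3 / 4 : ℝ)‖ < 1 / 8 := by
      simpa [dist_eq_norm] using hx
    have h2 : ‖(EuclideanSpace.single 0 (3 / 4 : ℝ) : E (n + 2))‖ = 3 / 4 := by
      rw [PiLp.norm_single, Real.norm_eq_abs]; norm_num
    have h3 := norm_le_norm_add_norm_sub' x (EuclideanSpace.single 0 (3 / 4 : ℝ))
    rw [h2] at h3
    rw [mem_ball_zero_iff]
    linarith
  have hpos : 0 < ∫ x in ball (EuclideanSpace.single 0 (3 / 4 : ℝ) : E (n + 2)) (1 / 8),
      psi x ^ 2 := by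
    have h1 : ∫ x in ball (EuclideanSpace.single 0 (3 / 4 : ℝ) : E (n + 2)) (1 / 8), psi x ^ 2
        = ∫ x in ball (EuclideanSpace.single 0 (3 / 4 : ℝ) : E (n + 2)) (1 / 8), (1 : ℝ) := by
      apply setIntegral_congr_fun measurableSet_ball
      intro x hx
      have h1 : ‖x - EuclideanSpace.single 0 (3 / 4 : ℝ)‖ < 1 / 8 := by
        simpa [dist_eq_norm] using hx
      have h2 := abs_coord_le_norm (x - EuclideanSpace.single 0 (3 / 4 : ℝ)) 0
      have h3 : (x - EuclideanSpace.single 0 (3 / 4 : ℝ) : E (n + 2)) 0 = x 0 - 3 / 4 := by simp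
      rw [h3] at h2
      have h4 := (abs_le.mp (h2.trans h1.le)).1
      simp only [psi, tsgn]
      rw [if_pos (by linarith)]
      norm_num
    rw [h1, setIntegral_const, smul_eq_mul, mul_one]
    exact ENNReal.toReal_pos (measure_ball_pos volume _ (by norm_num)).ne' measure_ball_lt_top.ne
  refine hpos.trans_le ?_
  apply setIntegral_mono_set hI
  · exact Eventually.of_forall fun x => sq_nonneg _
  · exact hsub.eventuallyLE

lemma c0_pos : 0 < c0 n := by
  unfold c0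
  have h1 := integral_psi_sq_pos (n := n)
  have h2 := vb_pos (n := n)
  positivity

lemma J_lower {R : ℝ} (hR : 4 ≤ R) :
    c0 n ≤ J ((Y n R).indicator (hS R)) (OS n R : S (n + 2) → ℝ)
      + J ((Y n R).indicator (hC R)) (OC n R : S (n + 2) → ℝ) := by
  have hR0 : 0 < R := by linarith
  have hIS := integrable_F (adm_indicator hR (measurable_hS R) (abs_hS_le R)) (OS n R)
  have hIC := integrable_F (adm_indicator hR (measurable_hC R) (abs_hC_le R)) (OC n R)
  rw [J, J, ← integral_add hIS hIC]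
  have hpsi2 : Integrable (fun x : E (n + 2) => psi x ^ 2)
      (volume.restrict (ball (0 : E (n + 2)) 1)) := by
    have : IsFiniteMeasure (volume.restrict (ball (0 : E (n + 2)) 1)) :=
      ⟨by simpa using measure_ball_lt_top⟩
    apply Integrable.of_bound (measurable_psi.pow_const 2).aestronglyMeasurable 1
    refine Eventually.of_forall fun x => ?_
    have := abs_psi_le x
    rw [Real.norm_eq_abs, abs_pow]
    exact pow_le_one₀ (abs_nonneg _) this
  have hlow : Integrable (fun p : E (n + 2) × E (n + 2) => psi p.1 ^ 2 *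
      ((Y n R).indicator (fun _ => 1 / 20 / (2 * R) ^ (n + 2)) p.2)) (nu n) :=
    Integrable.mul_prod (f := fun x : E (n + 2) => psi x ^ 2) hpsi2 (integrable_Y _)
  have hval : ∫ p : E (n + 2) × E (n + 2), psi p.1 ^ 2 *
      ((Y n R).indicator (fun _ => 1 / 20 / (2 * R) ^ (n + 2)) p.2) ∂(nu n) = c0 n := by
    rw [nu, integral_prod_mul (fun x : E (n + 2) => psi x ^ 2)
      ((Y n R).indicator (fun _ => 1 / 20 / (2 * R) ^ (n + 2))), integral_Y hR0.le, c0]
    congr 1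
    have h8 : (R / 4) ^ (n + 2) = (1 / 8) ^ (n + 2) * (2 * R) ^ (n + 2) := by
      rw [← mul_pow]
      congr 1
      ring
    rw [h8]
    field_simp
  rw [← hval]
  apply integral_mono_ae hlow (hIS.add hIC)
  filter_upwards [ae_fst_mem] with p hp
  rw [Pi.add_apply, F, F]
  by_cases hy : p.2 ∈ Y n R
  · rw [indicator_of_mem hy, indicator_of_mem hy, indicator_of_mem hy]
    obtain ⟨g1, g2, g3, g4⟩ := geom hR hp hy
    have hang := angle_lower hR hp hy
    have hz : p.1 - p.2 ≠ 0 := by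
      intro h
      rw [h, norm_zero] at g3
      linarith
    have e1 : (OS n R : S (n + 2) → ℝ) = prof Real.sin R := rfl
    have e2 : (OC n R : S (n + 2) → ℝ) = prof Real.cos R := rfl
    rw [e1, e2, kernel_prof _ _ hz, kernel_prof _ _ hz, hS, hC]
    set w := ‖p.1 - p.2‖⁻¹ * (p.1 - p.2) 1 / ‖p.1 - p.2‖ ^ (n + 2) with hw
    have hw1 : (1 / 2) / (2 * R) ^ (n + 2) ≤ w := by
      rw [hw]
      have hz0 : 0 < ‖p.1 - p.2‖ := by linarith
      have h1 : 1 / 2 ≤ ‖p.1 - p.2‖⁻¹ * (p.1 - p.2) 1 := by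
        rw [inv_mul_eq_div, div_le_div_iff₀ (by norm_num) hz0]
        linarith
      gcongr
    have hsub := Real.sin_sub (R * ((p.1 - p.2) 0 / (p.1 - p.2) 1)) (R * (p.2 0 / p.2 1))
    have e3 : psi p.1 * (w * Real.sin (R * ((p.1 - p.2) 0 / (p.1 - p.2) 1)) *
          Real.cos (R * (p.2 0 / p.2 1)))
        + psi p.1 * (w * Real.cos (R * ((p.1 - p.2) 0 / (p.1 - p.2) 1)) *
          -Real.sin (R * (p.2 0 / p.2 1)))
        = w * (psi p.1 * Real.sin (R * ((p.1 - p.2) 0 / (p.1 - p.2) 1) - R * (p.2 0 / p.2 1))) := by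
      rw [hsub]; ring
    rw [e3]
    have hp0 : 0 ≤ psi p.1 ^ 2 * (1 / 10) := by positivity
    have hw0 : 0 ≤ w := le_trans (by positivity) hw1
    calc psi p.1 ^ 2 * (1 / 20 / (2 * R) ^ (n + 2))
        = ((1 / 2) / (2 * R) ^ (n + 2)) * (psi p.1 ^ 2 * (1 / 10)) := by ring
      _ ≤ w * (psi p.1 * Real.sin (R * ((p.1 - p.2) 0 / (p.1 - p.2) 1) - R * (p.2 0 / p.2 1))) := by
        gcongr
  · rw [indicator_of_notMem hy, indicator_of_notMem hy, indicator_of_notMem hy]
    simp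

/-- At each scale there is a good pair. -/
lemma exists_scale {R : ℝ} (hR : 4 ≤ R) :
    ∃ h : E (n + 2) → ℝ, ∃ Ω : C(S (n + 2), ℝ), Measurable h ∧ (∀ y, |h y| ≤ 1) ∧
      (∀ ω, Ω (-ω) = - Ω ω) ∧ (∀ ω, |Ω ω| ≤ 1) ∧
      c0 n / 2 ≤ J ((Y n R).indicator h) (Ω : S (n + 2) → ℝ) := by
  have h := J_lower (n := n) hR
  by_cases h1 : c0 n / 2 ≤ J ((Y n R).indicator (hS R)) (OS n R : S (n + 2) → ℝ)
  · exact ⟨hS R, OS n R, measurable_hS R, abs_hS_le R, prof_neg _ _,
      abs_prof_le Real.abs_sin_le_one R, h1⟩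
  · exact ⟨hC R, OC n R, measurable_hC R, abs_hC_le R, prof_neg _ _,
      abs_prof_le Real.abs_cos_le_one R, by linarith⟩

end scale

section final

variable {n : ℕ}

/-- odd part -/
noncomputable def oddPart (Ω : C(S (n + 2), ℝ)) : C(S (n + 2), ℝ) :=
  (1 / 2 : ℝ) • (Ω - Ω.comp ⟨fun ω => -ω, continuous_neg⟩)

lemma oddPart_apply (Ω : C(S (n + 2), ℝ)) (ω : S (n + 2)) :
    oddPart Ω ω = (1 / 2) * (Ω ω - Ω (-ω)) := by
  simp [oddPart]

lemma oddPart_neg (Ω : C(S (n + 2), ℝ)) (ω : S (n + 2)) :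
    oddPart Ω (-ω) = - oddPart Ω ω := by
  rw [oddPart_apply, oddPart_apply, neg_neg]; ring

lemma oddPart_of_odd {Ω : C(S (n + 2), ℝ)} (h : ∀ ω, Ω (-ω) = - Ω ω) : oddPart Ω = Ω := by
  ext ω
  rw [oddPart_apply, h ω]; ring

lemma oddPart_add (Ω₁ Ω₂ : C(S (n + 2), ℝ)) :
    oddPart (Ω₁ + Ω₂) = oddPart Ω₁ + oddPart Ω₂ := by
  ext ω
  simp only [oddPart_apply, ContinuousMap.add_apply]; ring

lemma oddPart_smul (a : ℝ) (Ω : C(S (n + 2), ℝ)) :
    oddPart (a • Ω) = a • oddPart Ω := by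
  ext ω
  simp only [oddPart_apply, ContinuousMap.smul_apply, smul_eq_mul]; ring

lemma norm_oddPart_le (Ω : C(S (n + 2), ℝ)) : ‖oddPart Ω‖ ≤ ‖Ω‖ := by
  rw [ContinuousMap.norm_le _ (norm_nonneg _)]
  intro ω
  rw [oddPart_apply, Real.norm_eq_abs]
  have h1 := Ω.norm_coe_le_norm ω
  have h2 := Ω.norm_coe_le_norm (-ω)
  rw [Real.norm_eq_abs, abs_le] at h1 h2
  rw [abs_le]
  constructor <;> linarith [h1.1, h1.2, h2.1, h2.2]

lemma J_add {f : E (n + 2) → ℝ} (hf : Adm f) (Ω₁ Ω₂ : C(S (n + 2), ℝ)) :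
    J f ((Ω₁ + Ω₂ : C(S (n + 2), ℝ)) : S (n + 2) → ℝ)
      = J f (Ω₁ : S (n + 2) → ℝ) + J f (Ω₂ : S (n + 2) → ℝ) := by
  rw [J, J, J, ← integral_add (integrable_F hf Ω₁) (integrable_F hf Ω₂)]
  congr 1
  ext p
  simp only [F, kernel_add]
  ring

lemma J_smul (f : E (n + 2) → ℝ) (a : ℝ) (Ω : C(S (n + 2), ℝ)) :
    J f ((a • Ω : C(S (n + 2), ℝ)) : S (n + 2) → ℝ) = a * J f (Ω : S (n + 2) → ℝ) := by
  rw [J, J, ← integral_const_mul]
  congr 1
  ext p
  simp only [F, kernel_smul]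
  ring

/-- the functional at scale `R` -/
noncomputable def Lam {R : ℝ} (hR : 4 ≤ R) {h : E (n + 2) → ℝ} (hh : Measurable h)
    (hb : ∀ y, |h y| ≤ 1) : C(S (n + 2), ℝ) →L[ℝ] ℝ :=
  LinearMap.mkContinuous
    { toFun := fun Ω => J ((Y n R).indicator h) (oddPart Ω : S (n + 2) → ℝ)
      map_add' := fun Ω₁ Ω₂ => by
        rw [oddPart_add, J_add (adm_indicator hR hh hb)]
      map_smul' := fun a Ω => by
        rw [oddPart_smul, J_smul, RingHom.id_apply, smul_eq_mul] }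
    (vb n ^ 2 * (1 / 4) ^ (n + 2))
    (fun Ω => by
      have h1 := J_upper hR hh hb (oddPart Ω)
      have h2 := norm_oddPart_le Ω
      have h3 : 0 ≤ vb n ^ 2 * (1 / 4) ^ (n + 2) := by positivity
      simp only [LinearMap.coe_mk, AddHom.coe_mk, Real.norm_eq_abs]
      exact h1.trans (by gcongr))

lemma Lam_apply {R : ℝ} (hR : 4 ≤ R) {h : E (n + 2) → ℝ} (hh : Measurable h)
    (hb : ∀ y, |h y| ≤ 1) (Ω : C(S (n + 2), ℝ)) :
    Lam hR hh hb Ω = J ((Y n R).indicator h) (oddPart Ω : S (n + 2) → ℝ) := rfl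

lemma abs_Lam_le {R : ℝ} (hR : 4 ≤ R) {h : E (n + 2) → ℝ} (hh : Measurable h)
    (hb : ∀ y, |h y| ≤ 1) (Ω : C(S (n + 2), ℝ)) :
    |Lam hR hh hb Ω| ≤ (vb n ^ 2 * (1 / 4) ^ (n + 2)) * ‖Ω‖ := by
  rw [Lam_apply]
  have h1 := J_upper hR hh hb (oddPart Ω)
  have h2 := norm_oddPart_le Ω
  have h3 : 0 ≤ vb n ^ 2 * (1 / 4) ^ (n + 2) := by positivity
  exact h1.trans (by gcongr)

/-- the scales -/
noncomputable def Rs (k : ℕ) : ℝ := 4 * 2 ^ k

lemma four_le_Rs (k : ℕ) : 4 ≤ Rs k := by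
  unfold Rs
  have : (1 : ℝ) ≤ 2 ^ k := one_le_pow₀ (by norm_num)
  linarith

lemma Rs_lt {k l : ℕ} (h : k < l) : 2 * Rs k ≤ Rs l := by
  unfold Rs
  have : (2 : ℝ) ^ (k + 1) ≤ 2 ^ l := pow_le_pow_right₀ (by norm_num) h
  rw [pow_succ] at this
  linarith

lemma Y_disjoint {k l : ℕ} (h : k ≠ l) {y : E (n + 2)} (hk : y ∈ Y n (Rs k)) :
    y ∉ Y n (Rs l) := by
  intro hl
  have a1 := Y_coords (by linarith [four_le_Rs k]) hk
  have a2 := Y_coords (by linarith [four_le_Rs l]) hl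
  have b1 := four_le_Rs k
  have b2 := four_le_Rs l
  rcases lt_or_gt_of_ne h with h | h
  · have := Rs_lt h
    linarith [a1.2.2.2, a2.2.2.1]
  · have := Rs_lt h
    linarith [a2.2.2.2, a1.2.2.1]

/-- the signed sum over scales -/
noncomputable def fsum (N : ℕ) (h : ℕ → E (n + 2) → ℝ) (ε : Fin N → Bool) (y : E (n + 2)) : ℝ :=
  ∑ k : Fin N, sg (ε k) * (Y n (Rs k)).indicator (h k) y

lemma adm_fsum (N : ℕ) {h : ℕ → E (n + 2) → ℝ} (hh : ∀ k, Measurable (h k))
    (hb : ∀ k y, |h k y| ≤ 1) (ε : Fin N → Bool) : Adm (fsum N h ε) := by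
  have hadm := fun k => adm_indicator (four_le_Rs k) (hh k) (hb k)
  refine ⟨?_, ?_, ?_, ?_⟩
  · unfold fsum
    apply Finset.measurable_sum
    intro k _
    exact (hadm k).meas.const_mul _
  · intro y
    by_cases hy : ∃ k : Fin N, y ∈ Y n (Rs k)
    · obtain ⟨k, hk⟩ := hy
      have : fsum N h ε y = sg (ε k) * (Y n (Rs k)).indicator (h k) y := by
        unfold fsum
        apply Finset.sum_eq_single_of_mem k (Finset.mem_univ k)
        intro l _ hl
        rw [indicator_of_notMem, mul_zero]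
        exact Y_disjoint (fun h' => hl (Fin.ext h'.symm)) hk
      rw [this, abs_mul, abs_sg, one_mul]
      exact (hadm k).bdd y
    · push Not at hy
      have : fsum N h ε y = 0 := by
        unfold fsum
        apply Finset.sum_eq_zero
        intro l _
        rw [indicator_of_notMem (hy l), mul_zero]
      rw [this]; simp
  · intro y hy
    unfold fsum
    apply Finset.sum_eq_zero
    intro l _
    rw [(hadm l).zero y hy, mul_zero]
  · refine ⟨7 / 4 * Rs N, fun y hy => ?_⟩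
    unfold fsum
    apply Finset.sum_eq_zero
    intro l _
    rw [indicator_of_notMem, mul_zero]
    intro hl
    have a2 := (Y_coords (by linarith [four_le_Rs l]) hl).2.2.2
    have := Rs_lt l.2
    linarith [four_le_Rs l]

lemma J_fsum (N : ℕ) {h : ℕ → E (n + 2) → ℝ} (hh : ∀ k, Measurable (h k))
    (hb : ∀ k y, |h k y| ≤ 1) (ε : Fin N → Bool) (Ω : C(S (n + 2), ℝ)) :
    J (fsum N h ε) (Ω : S (n + 2) → ℝ)
      = ∑ k : Fin N, sg (ε k) * J ((Y n (Rs k)).indicator (h k)) (Ω : S (n + 2) → ℝ) := by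
  have hadm := fun k => adm_indicator (four_le_Rs k) (hh k) (hb k)
  have h1 : ∀ k : Fin N, sg (ε k) * J ((Y n (Rs k)).indicator (h k)) (Ω : S (n + 2) → ℝ)
      = ∫ p, sg (ε k) * F ((Y n (Rs k)).indicator (h k)) (Ω : S (n + 2) → ℝ) p ∂(nu n) := by
    intro k
    rw [J, integral_const_mul]
  rw [Finset.sum_congr rfl (fun k _ => h1 k), ← integral_finsetSum, J]
  · congr 1
    ext p
    simp only [F, fsum]
    rw [Finset.mul_sum, Finset.mul_sum]
    apply Finset.sum_congr rfl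
    intro k _
    ring
  · intro k _
    exact (integrable_F (hadm k) Ω).const_mul _

lemma maxMean_le_one {f : E (n + 2) → ℝ} (hf : Adm f) {r : ℝ} (hr : 1 ≤ r) :
    maxMean r f (0 : E (n + 2)) 1 ≤ 1 := by
  unfold maxMean
  apply iSup_le; intro c'
  apply iSup_le; intro ρ'
  apply iSup_le; intro hρ'
  apply iSup_le; intro _
  have hV0 : volume (ball c' ρ') ≠ 0 := (measure_ball_pos volume _ hρ').ne'
  have hVt : volume (ball c' ρ') ≠ ∞ := measure_ball_lt_top.ne
  have h1 : ∫⁻ y in ball c' ρ', ‖f y‖ₑ ^ r ≤ volume (ball c' ρ') := by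
    calc ∫⁻ y in ball c' ρ', ‖f y‖ₑ ^ r ≤ ∫⁻ y in ball c' ρ', 1 := by
          apply lintegral_mono
          intro y
          have : ‖f y‖ₑ ≤ 1 := by
            rw [← ofReal_norm, ← ENNReal.ofReal_one]
            exact ENNReal.ofReal_le_ofReal (hf.bdd y)
          exact (ENNReal.rpow_le_rpow this (by linarith)).trans (by simp)
      _ = volume (ball c' ρ') := by simp
  calc ((volume (ball c' ρ'))⁻¹ * ∫⁻ y in ball c' ρ', ‖f y‖ₑ ^ r) ^ (1 / r)
      ≤ ((volume (ball c' ρ'))⁻¹ * volume (ball c' ρ')) ^ (1 / r) := by gcongr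
    _ = 1 := by rw [ENNReal.inv_mul_cancel hV0 hVt, ENNReal.one_rpow]

open scoped Pointwise in
lemma map_neg_toSphere :
    ((volume : Measure (E (n + 2))).toSphere).map (fun ω : S (n + 2) => -ω)
      = (volume : Measure (E (n + 2))).toSphere := by
  ext s hs
  rw [Measure.map_apply measurable_neg hs,
    Measure.toSphere_apply' _ (measurable_neg hs), Measure.toSphere_apply' _ hs]
  congr 1
  have : Ioo (0 : ℝ) 1 • ((↑) '' ((fun ω : S (n + 2) => -ω) ⁻¹' s) : Set (E (n + 2)))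
      = -(Ioo (0 : ℝ) 1 • ((↑) '' s : Set (E (n + 2)))) := by
    ext x
    simp only [Set.mem_smul, Set.mem_neg, mem_image, mem_preimage]
    constructor
    · rintro ⟨t, ht, _, ⟨ω, hω, rfl⟩, rfl⟩
      exact ⟨t, ht, _, ⟨-ω, hω, rfl⟩, by simp⟩
    · rintro ⟨t, ht, _, ⟨ω, hω, rfl⟩, hx⟩
      refine ⟨t, ht, _, ⟨-ω, by simpa using hω, rfl⟩, ?_⟩
      have hx' : x = -(t • (ω : E (n + 2))) := by
        rw [eq_neg_iff_add_eq_zero]
        have : t • (ω : E (n + 2)) = -x := hx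
        rw [this]; simp
      rw [hx']; simp
  rw [this, Measure.measure_neg]

lemma integral_odd {Ω : C(S (n + 2), ℝ)} (h : ∀ ω, Ω (-ω) = - Ω ω) :
    ∫ ω, Ω ω ∂((volume : Measure (E (n + 2))).toSphere) = 0 := by
  have h1 : ∫ ω, Ω ω ∂((volume : Measure (E (n + 2))).toSphere)
      = ∫ ω, Ω (-ω) ∂((volume : Measure (E (n + 2))).toSphere) := by
    conv_lhs => rw [← map_neg_toSphere]
    rw [integral_map measurable_neg.aemeasurable Ω.continuous.aestronglyMeasurable]
  simp only [h, integral_neg] at h1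
  linarith

/-- The core statement in dimension `n + 2`. -/
theorem core (n : ℕ) : ∃ Ω : C(S (n + 2), ℝ), (∀ ω, Ω (-ω) = - Ω ω) ∧
    ∀ r : ℝ, 1 ≤ r → ¬ OscillationInequality (Ω : S (n + 2) → ℝ) r := by
  by_contra hcon
  push Not at hcon
  -- choose good pairs at each scale
  have hsc := fun k : ℕ => exists_scale (n := n) (four_le_Rs k)
  choose h Om hh hb hodd hOm hlow using hsc
  -- the family of functionals
  let Lk : (k : ℕ) → (C(S (n + 2), ℝ) →L[ℝ] ℝ) := fun k => Lam (four_le_Rs k) (hh k) (hb k)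
  let ι := (m : ℕ) × (Fin (m ^ 2) → Bool)
  let G : ι → (C(S (n + 2), ℝ) →L[ℝ] ℝ) := fun i => ∑ k : Fin (i.1 ^ 2), sg (i.2 k) • Lk k
  have hG : ∀ (i : ι) (Ω : C(S (n + 2), ℝ)),
      G i Ω = J (fsum (i.1 ^ 2) h i.2) (oddPart Ω : S (n + 2) → ℝ) := by
    intro i Ω
    rw [J_fsum _ hh hb]
    simp only [G, Lk, FunLike.coe_sum, Finset.sum_apply,
      FunLike.coe_smul, Pi.smul_apply, Lam_apply, smul_eq_mul]
  -- pointwise bounded
  have hpb : ∀ Ω : C(S (n + 2), ℝ), ∃ C, ∀ i, ‖G i Ω‖ ≤ C := by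
    intro Ω
    obtain ⟨r, hr, C, hC⟩ := hcon (oddPart Ω) (oddPart_neg Ω)
    refine ⟨C * vb n, fun i => ?_⟩
    have hadm := adm_fsum (i.1 ^ 2) hh hb i.2
    rw [hG, Real.norm_eq_abs]
    apply abs_J_le_osc hadm (oddPart Ω) C
    obtain ⟨R, hR⟩ := hadm.far
    have hcs : HasCompactSupport (fsum (i.1 ^ 2) h i.2) :=
      HasCompactSupport.intro (isCompact_closedBall 0 R) (fun x hx => hR x (by simpa using hx))
    have h1 := hC 0 1 one_pos (fsum (i.1 ^ 2) h i.2) hadm.meas ⟨1, hadm.bdd⟩ hcs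
    calc osc (oddPart Ω : S (n + 2) → ℝ) (fsum (i.1 ^ 2) h i.2) 0 1
        ≤ C * maxMean r (fsum (i.1 ^ 2) h i.2) 0 1 := h1
      _ ≤ C * 1 := by gcongr; exact maxMean_le_one hadm hr
      _ = C := mul_one _
  obtain ⟨K, hK⟩ := banach_steinhaus hpb
  -- lower bound
  have hc0 := c0_pos (n := n)
  have hvb := vb_pos (n := n)
  set C₁ := vb n ^ 2 * (1 / 4) ^ (n + 2) with hC₁
  have hC₁pos : 0 < C₁ := by positivity
  obtain ⟨A, hA1, hA2⟩ : ∃ A : ℝ, 1 ≤ A ∧ 2 * C₁ ≤ (c0 n / 2) * A ^ 2 := by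
    refine ⟨1 + 4 * C₁ / c0 n, ?_, ?_⟩
    · have : 0 ≤ 4 * C₁ / c0 n := by positivity
      linarith
    · have h0 : 0 ≤ 4 * C₁ / c0 n := by positivity
      have h1 : 4 * C₁ / c0 n ≤ (1 + 4 * C₁ / c0 n) ^ 2 := by nlinarith
      calc 2 * C₁ = (c0 n / 2) * (4 * C₁ / c0 n) := by field_simp; ring
        _ ≤ _ := by gcongr
  obtain ⟨m, hm⟩ := exists_nat_gt (max 1 (K * (2 * A) / (c0 n / 2)))
  have hm1 : (1 : ℝ) < m := (le_max_left _ _).trans_lt hm
  have hm2 : K * (2 * A) / (c0 n / 2) < m := (le_max_right _ _).trans_lt hm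
  have hmn : 1 ≤ m := by
    have : (1 : ℝ) ≤ m := hm1.le
    exact_mod_cast this
  obtain ⟨ε, Φ, hΦ, hsum⟩ := exists_signs m hmn (fun k : Fin (m ^ 2) => Lk k)
    (fun k : Fin (m ^ 2) => Om k) C₁ (c0 n / 2) A hC₁pos (by positivity) hA1 hA2
    (fun k Ω => abs_Lam_le _ _ _ _) (fun k ω => hOm k ω)
    (fun k => by
      show c0 n / 2 ≤ Lam _ _ _ _
      rw [Lam_apply, oddPart_of_odd (hodd k)]
      exact hlow k)
  have hGi : G ⟨m, ε⟩ Φ = ∑ k : Fin (m ^ 2), sg (ε k) * Lk k Φ := by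
    simp only [G, FunLike.coe_sum, Finset.sum_apply,
      FunLike.coe_smul, Pi.smul_apply, smul_eq_mul]
  have hΦ1 : ‖Φ‖ ≤ 1 := by
    rw [ContinuousMap.norm_le _ zero_le_one]
    intro ω
    rw [hΦ ω, Real.norm_eq_abs]
    exact Real.abs_sin_le_one _
  have h1 : m * (c0 n / 2) / (2 * A) ≤ K := by
    calc m * (c0 n / 2) / (2 * A) ≤ G ⟨m, ε⟩ Φ := by rw [hGi]; exact hsum
      _ ≤ ‖G ⟨m, ε⟩ Φ‖ := Real.le_norm_self _
      _ ≤ ‖G ⟨m, ε⟩‖ * ‖Φ‖ := (G ⟨m, ε⟩).le_opNorm Φ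
      _ ≤ K * 1 := by
          have := hK ⟨m, ε⟩
          have h0 := norm_nonneg (G ⟨m, ε⟩)
          gcongr
          exact h0.trans this
      _ = K := mul_one _
  rw [div_lt_iff₀ (by positivity)] at hm2
  rw [div_le_iff₀ (by positivity)] at h1
  linarith

end final

end Pool.Agent.Lib.MP_577a3c_an
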